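import Pool.Agent.W402.HI.Defs2
import Pool.Agent.W125.HI.E3

/-! # HI-H3: growth in terms of the distance implies growth outside cones -/

set_option autoImplicit false

open Filter Topology MeasureTheory Metric

namespace Pool.Agent.W340.HI.H3

open Pool.Agent.W402.HI

theorem core (N : ℂ → ℝ) (E U : Set ℂ) (C : ℝ) (k : ℕ) (hU : IsOpen U)
    (hN : ∀ z ∈ U, z ∉ E → N z ≤ Real.exp (C / infDist z E ^ k)) (w : ℂ) (hw : w ∈ E)
    (hwU : w ∈ U) (d : ℂ) (hd : ‖d‖ = 1) (hT : TangentAt E w d) (θ : ℝ) (hθ : 0 < θ)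
    (hθ1 : θ ≤ 1) :
    ∃ C' r : ℝ, 0 < r ∧ ∀ z : ℂ, z ≠ w → ‖z - w‖ < r →
      θ * |((z - w) / d).re| ≤ ((z - w) / d).im →
      N z ≤ Real.exp (C' / ‖z - w‖ ^ k) := by
  have hd0 : d ≠ 0 := by
    intro h
    rw [h, norm_zero] at hd
    exact zero_ne_one hd
  obtain ⟨r1, hr1, ht⟩ := hT (θ / 8) (by positivity)
  obtain ⟨r2, hr2, hball⟩ := Metric.isOpen_iff.1 hU w hwU
  refine ⟨|C| * (20 / θ) ^ k, min (r1 / 2) r2, lt_min (by positivity) hr2, ?_⟩
  intro z hzw hzr hcone
  have hpos : 0 < ‖z - w‖ := norm_pos_iff.mpr (sub_ne_zero.mpr hzw)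
  set s := (z - w) / d with hs
  have hsn : ‖s‖ = ‖z - w‖ := by rw [hs, norm_div, hd, div_one]
  have hzs : w + d * s = z := by
    rw [hs, mul_div_cancel₀ _ hd0]
    ring
  have h1 := W125.HI.geo E w d hw hd θ r1 hθ hθ1 ht s
    (by rw [hsn]; exact hzr.trans_le (min_le_left _ _))
    (le_trans (by have := abs_nonneg s.re; nlinarith) hcone)
  rw [hzs, hsn] at h1
  have hdist : 0 < infDist z E := lt_of_lt_of_le (by positivity) h1
  have hzE : z ∉ E := by
    intro h
    rw [infDist_zero_of_mem h] at hdist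
    exact lt_irrefl _ hdist
  have hzU : z ∈ U := hball (by
    rw [Metric.mem_ball, dist_eq_norm]; exact hzr.trans_le (min_le_right _ _))
  refine (hN z hzU hzE).trans (Real.exp_le_exp.mpr ?_)
  calc C / infDist z E ^ k ≤ |C| / infDist z E ^ k := by
        gcongr; exact le_abs_self C
    _ ≤ |C| / (θ / 20 * ‖z - w‖) ^ k := by gcongr
    _ = |C| * (20 / θ) ^ k / ‖z - w‖ ^ k := by
        rw [mul_pow, div_pow, div_pow]; field_simp

theorem main : P_H3 := by
  intro N E U C k _ hU hN w hw hwU d hd hT θ hθ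
  set θ' := min θ 1 with hθ'
  have h0 : 0 < θ' := lt_min hθ one_pos
  have h1 : θ' ≤ 1 := min_le_right _ _
  have hT' : TangentAt E w (-d) := by
    intro η hη
    obtain ⟨r, hr, h⟩ := hT η hη
    refine ⟨r, hr, ?_⟩
    intro z hz hzr
    have := h z hz hzr
    rw [div_neg, Complex.neg_im, Complex.neg_re, abs_neg, abs_neg]
    exact this
  obtain ⟨C1, r1, hr1, H1⟩ := core N E U C k hU hN w hw hwU d hd hT θ' h0 h1
  obtain ⟨C2, r2, hr2, H2⟩ := core N E U C k hU hN w hw hwU (-d) (by rwa [norm_neg]) hT' θ' h0 h1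
  refine ⟨max C1 C2, min r1 r2, lt_min hr1 hr2, ?_⟩
  intro z hzw hzr hcone
  have hpos : 0 < ‖z - w‖ := norm_pos_iff.mpr (sub_ne_zero.mpr hzw)
  have hcone' : θ' * |((z - w) / d).re| ≤ |((z - w) / d).im| := by
    refine le_trans ?_ hcone
    exact mul_le_mul_of_nonneg_right (min_le_left _ _) (abs_nonneg _)
  rcases le_total 0 ((z - w) / d).im with h | h
  · rw [abs_of_nonneg h] at hcone'
    refine (H1 z hzw (hzr.trans_le (min_le_left _ _)) hcone').trans ?_
    apply Real.exp_le_exp.mpr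
    gcongr
    exact le_max_left _ _
  · rw [abs_of_nonpos h] at hcone'
    refine (H2 z hzw (hzr.trans_le (min_le_right _ _)) ?_).trans ?_
    · rw [div_neg, Complex.neg_im, Complex.neg_re, abs_neg]
      exact hcone'
    · apply Real.exp_le_exp.mpr
      gcongr
      exact le_max_right _ _

end Pool.Agent.W340.HI.H3
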